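import Pool.Agent.H695R3.PP.Stmts

/-! Project H695-LP, TaskFE (helper349). -/

set_option autoImplicit false

open scoped BigOperators ENNReal
open MeasureTheory

namespace Pool.Agent.H695R3.PP
namespace FEaux

theorem meas_update : Measurable (fun p : (ℤ → ℝ) × ℝ => Function.update p.1 1 p.2) := by
  rw [measurable_pi_iff]
  intro n
  by_cases h : n = 1
  · subst h
    simpa using measurable_snd
  · simp only [Function.update_of_ne h]
    exact (measurable_pi_apply n).comp measurable_fst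

theorem U_le (A : Set ℝ) : U A ≤ ENNReal.ofReal (1 / 2) * volume A := by
  unfold U
  rw [Measure.smul_apply, smul_eq_mul]
  exact mul_le_mul_right (Measure.restrict_apply_le _ _) _

theorem U_null {A : Set ℝ} (h : ∀ s ∈ Set.Icc (-1 : ℝ) 1, s ∉ A) : U A = 0 := by
  unfold U
  rw [Measure.smul_apply, smul_eq_mul, Measure.restrict_apply' measurableSet_Icc]
  have : A ∩ Set.Icc (-1 : ℝ) 1 = ∅ := by
    ext s
    simp only [Set.mem_inter_iff, Set.mem_empty_iff_false, iff_false, not_and]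
    intro h1 h2
    exact h s h2 h1
  rw [this, measure_empty, mul_zero]

theorem U_bound {ε R c v1 v2 t : ℝ} (hε : 0 < ε) (hε1 : ε ≤ 1) (hR : 1 ≤ R) (hc : |c| ≤ 2 * R)
    (ht : 0 < t) (hN : 0 < √(v1 ^ 2 + v2 ^ 2)) :
    U {s | |(c - ε * s) * v1 - v2| ≤ t} ≤
      ENNReal.ofReal (18 * R / ε * t * (1 / √(v1 ^ 2 + v2 ^ 2))) := by
  obtain ⟨N, hNd⟩ : ∃ N, N = √(v1 ^ 2 + v2 ^ 2) := ⟨_, rfl⟩
  have hN2 : N ^ 2 = v1 ^ 2 + v2 ^ 2 := by
    rw [hNd]
    exact Real.sq_sqrt (by positivity)
  rw [← hNd] at hN ⊢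
  have hR0 : 0 < R := by linarith
  by_cases h : N ≤ (8 * R + 8) * |v1|
  · have hv1 : 0 < |v1| := by
      by_contra hcon
      have : |v1| = 0 := le_antisymm (not_lt.1 hcon) (abs_nonneg _)
      rw [this] at h
      linarith
    have hv0 : v1 ≠ 0 := abs_pos.1 hv1
    have hsub : {s | |(c - ε * s) * v1 - v2| ≤ t} ⊆
        Metric.closedBall ((c * v1 - v2) / (ε * v1)) (t / (ε * |v1|)) := by
      intro s hs
      rw [Metric.mem_closedBall, Real.dist_eq, le_div_iff₀ (by positivity)]
      have h1 : ε * |v1| = |ε * v1| := by rw [abs_mul, abs_of_pos hε]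
      rw [h1, ← abs_mul]
      have h2 : (s - (c * v1 - v2) / (ε * v1)) * (ε * v1) = -((c - ε * s) * v1 - v2) := by
        field_simp
        ring
      rw [h2, abs_neg]
      exact hs
    refine (measure_mono hsub).trans ((U_le _).trans ?_)
    rw [Real.volume_closedBall, ← ENNReal.ofReal_mul (by norm_num)]
    apply ENNReal.ofReal_le_ofReal
    have h3 : 1 / 2 * (2 * (t / (ε * |v1|))) = t / (ε * |v1|) := by ring
    rw [h3, div_le_iff₀ (by positivity)]
    have h4 : 18 * R / ε * t * (1 / N) * (ε * |v1|) = t * (18 * R * |v1| / N) := by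
      field_simp
    rw [h4]
    have h5 : 1 ≤ 18 * R * |v1| / N := by
      rw [le_div_iff₀ hN]
      nlinarith
    nlinarith
  · push Not at h
    by_cases h2t : N ≤ 2 * t
    · refine prob_le_one.trans ?_
      rw [← ENNReal.ofReal_one]
      apply ENNReal.ofReal_le_ofReal
      have h1 : 18 * R / ε * t * (1 / N) = (18 * R / ε) * (t / N) := by ring
      rw [h1]
      have h2 : 1 / 2 ≤ t / N := by
        rw [le_div_iff₀ hN]
        linarith
      have h3 : 18 ≤ 18 * R / ε := by
        rw [le_div_iff₀ hε]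
        nlinarith
      nlinarith
    · push Not at h2t
      rw [U_null]
      · exact bot_le
      · intro s hs hsA
        have hsA' : |(c - ε * s) * v1 - v2| ≤ t := hsA
        have hs1 : |s| ≤ 1 := abs_le.2 ⟨hs.1, hs.2⟩
        have h16 : 16 * |v1| ≤ N := by
          have : 16 * |v1| ≤ (8 * R + 8) * |v1| :=
            mul_le_mul_of_nonneg_right (by linarith) (abs_nonneg _)
          linarith
        have h1 : |(c - ε * s) * v1| ≤ N / 4 := by
          rw [abs_mul]
          have h2 : |c - ε * s| ≤ 2 * R + 1 := by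
            refine (abs_sub _ _).trans ?_
            rw [abs_mul, abs_of_pos hε]
            have : ε * |s| ≤ 1 * 1 := mul_le_mul hε1 hs1 (abs_nonneg _) (by norm_num)
            linarith
          have h3 : |c - ε * s| * |v1| ≤ (2 * R + 1) * |v1| :=
            mul_le_mul_of_nonneg_right h2 (abs_nonneg _)
          nlinarith [abs_nonneg v1]
        have h2 : 3 / 4 * N ≤ |v2| := by
          by_contra hcon
          push Not at hcon
          have h3 : v1 ^ 2 = |v1| ^ 2 := (sq_abs v1).symm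
          have h4 : v2 ^ 2 = |v2| ^ 2 := (sq_abs v2).symm
          rw [h3, h4] at hN2
          have h5 : |v1| ^ 2 ≤ (N / 16) ^ 2 :=
            pow_le_pow_left₀ (abs_nonneg _) (by linarith) 2
          have h6 : |v2| ^ 2 ≤ (3 / 4 * N) ^ 2 :=
            pow_le_pow_left₀ (abs_nonneg _) hcon.le 2
          nlinarith
        have h3 : |v2| - |(c - ε * s) * v1| ≤ |(c - ε * s) * v1 - v2| := by
          have := abs_sub_abs_le_abs_sub v2 ((c - ε * s) * v1)
          rw [abs_sub_comm v2] at this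
          exact this
        linarith

theorem rsol_meas (W : ℤ → ℝ) (ε E : ℝ) (b : ℤ) (j : ℕ) :
    Measurable (fun x : ℤ → ℝ => rsol (fun n => W n + ε * x n) E b j) := by
  induction j with
  | zero => exact measurable_const
  | succ j ih =>
    have h1 : Measurable (fun x : ℤ → ℝ => (rsol (fun n => W n + ε * x n) E b j).1) :=
      measurable_fst.comp ih
    have h2 : Measurable (fun x : ℤ → ℝ => (rsol (fun n => W n + ε * x n) E b j).2) :=
      measurable_snd.comp ih
    have h3 : Measurable (fun x : ℤ → ℝ => E - (W (b - j) + ε * x (b - j))) := by fun_prop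
    exact ((h3.mul h1).sub h2).prodMk h1

theorem rsol_congr {V V' : ℤ → ℝ} (E : ℝ) (b : ℤ) (j : ℕ)
    (h : ∀ i : ℕ, i < j → V (b - i) = V' (b - i)) : rsol V E b j = rsol V' E b j := by
  induction j with
  | zero => rfl
  | succ j ih =>
    have h1 := ih (fun i hi => h i (by omega))
    change ((E - V (b - j)) * (rsol V E b j).1 - (rsol V E b j).2, (rsol V E b j).1) =
      ((E - V' (b - j)) * (rsol V' E b j).1 - (rsol V' E b j).2, (rsol V' E b j).1)
    rw [h1, h j (by omega)]

theorem rsol_pos (V : ℤ → ℝ) (E : ℝ) (b : ℤ) (j : ℕ) :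
    0 < √((rsol V E b j).1 ^ 2 + (rsol V E b j).2 ^ 2) := by
  rw [Real.sqrt_pos]
  induction j with
  | zero =>
    change (0 : ℝ) < 1 ^ 2 + 0 ^ 2
    norm_num
  | succ j ih =>
    change 0 < ((E - V (b - j)) * (rsol V E b j).1 - (rsol V E b j).2) ^ 2 +
      (rsol V E b j).1 ^ 2
    by_cases h : (rsol V E b j).1 = 0
    · rw [h] at ih ⊢
      have h2 : 0 < (rsol V E b j).2 ^ 2 := by simpa using ih
      have h3 : ((E - V (b - j)) * 0 - (rsol V E b j).2) ^ 2 + (0 : ℝ) ^ 2 =
          (rsol V E b j).2 ^ 2 := by ring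
      rw [h3]
      exact h2
    · positivity

end FEaux

open FEaux

theorem taskFE (hJ : TaskJ) (hRes : TaskResample) : TaskFE := by
  obtain ⟨c, C, hc, hc1, hC, hJ'⟩ := hJ
  refine ⟨c, 36 * C, hc, hc1, by positivity, ?_⟩
  intro ε R E t W L hε hε1 hR hE hW ht hL
  obtain ⟨l, rfl⟩ : ∃ l, L = l + 1 := ⟨L - 1, by omega⟩
  have hR0 : 0 < R := by linarith
  have hms : MeasurableSet {x : ℤ → ℝ |
      |(rsol (fun n => W n + ε * x n) E ((l + 1 : ℕ) : ℤ) (l + 1)).1| ≤ t} := by
    have h1 : Measurable (fun x : ℤ → ℝ =>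
        |(rsol (fun n => W n + ε * x n) E ((l + 1 : ℕ) : ℤ) (l + 1)).1|) :=
      (measurable_fst.comp (rsol_meas W ε E _ _)).abs
    exact measurableSet_le h1 measurable_const
  have hPZ : PZ = Measure.map (fun p : (ℤ → ℝ) × ℝ => Function.update p.1 1 p.2)
      (PZ.prod U) := (hRes ℤ (fun _ => ℝ) (fun _ => U) 1).symm
  have hkey : PZ {x : ℤ → ℝ |
      |(rsol (fun n => W n + ε * x n) E ((l + 1 : ℕ) : ℤ) (l + 1)).1| ≤ t} ≤
      ∫⁻ x, ENNReal.ofReal (18 * R / ε * t *
        (1 / rlen (fun n => W n + ε * x n) E ((l + 1 : ℕ) : ℤ) l)) ∂PZ := by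
    conv_lhs => rw [hPZ]
    rw [Measure.map_apply meas_update hms, Measure.prod_apply (meas_update hms)]
    apply lintegral_mono
    intro x
    have hset : Prod.mk x ⁻¹' ((fun p : (ℤ → ℝ) × ℝ => Function.update p.1 1 p.2) ⁻¹'
        {x : ℤ → ℝ |
          |(rsol (fun n => W n + ε * x n) E ((l + 1 : ℕ) : ℤ) (l + 1)).1| ≤ t}) =
        {s : ℝ | |((E - W 1) - ε * s) *
            (rsol (fun n => W n + ε * x n) E ((l + 1 : ℕ) : ℤ) l).1 -
          (rsol (fun n => W n + ε * x n) E ((l + 1 : ℕ) : ℤ) l).2| ≤ t} := by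
      ext s
      rw [Set.mem_preimage, Set.mem_preimage]
      have h1 : rsol (fun n => W n + ε * Function.update x 1 s n) E ((l + 1 : ℕ) : ℤ) l =
          rsol (fun n => W n + ε * x n) E ((l + 1 : ℕ) : ℤ) l := by
        apply rsol_congr
        intro i hi
        have h2 : (((l + 1 : ℕ) : ℤ) - (i : ℤ)) ≠ 1 := by
          push_cast
          omega
        change W _ + ε * Function.update x 1 s _ = W _ + ε * x _
        rw [Function.update_of_ne h2]
      have h3 : (((l + 1 : ℕ) : ℤ) - (l : ℤ)) = 1 := by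
        push_cast
        ring
      have h4 : (rsol (fun n => W n + ε * Function.update x 1 s n) E ((l + 1 : ℕ) : ℤ)
          (l + 1)).1 = ((E - W 1) - ε * s) *
            (rsol (fun n => W n + ε * x n) E ((l + 1 : ℕ) : ℤ) l).1 -
          (rsol (fun n => W n + ε * x n) E ((l + 1 : ℕ) : ℤ) l).2 := by
        change (E - (W (((l + 1 : ℕ) : ℤ) - (l : ℤ)) +
          ε * Function.update x 1 s (((l + 1 : ℕ) : ℤ) - (l : ℤ)))) *
            (rsol (fun n => W n + ε * Function.update x 1 s n) E ((l + 1 : ℕ) : ℤ) l).1 -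
          (rsol (fun n => W n + ε * Function.update x 1 s n) E ((l + 1 : ℕ) : ℤ) l).2 = _
        rw [h1, h3, Function.update_self]
        ring
      change |(rsol (fun n => W n + ε * Function.update x 1 s n) E ((l + 1 : ℕ) : ℤ)
          (l + 1)).1| ≤ t ↔ _
      rw [h4]
      rfl
    change U (Prod.mk x ⁻¹' _) ≤ _
    rw [hset]
    apply U_bound hε hε1 hR ?_ ht (rsol_pos _ _ _ _)
    refine (abs_sub _ _).trans ?_
    linarith [hW 1]
  refine hkey.trans ?_
  have h5 : ∀ x : ℤ → ℝ, ENNReal.ofReal (18 * R / ε * t *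
      (1 / rlen (fun n => W n + ε * x n) E ((l + 1 : ℕ) : ℤ) l)) =
      ENNReal.ofReal (18 * R / ε * t) * ENNReal.ofReal
        (1 / rlen (fun n => W n + ε * x n) E ((l + 1 : ℕ) : ℤ) l) := by
    intro x
    rw [ENNReal.ofReal_mul (by positivity)]
  simp_rw [h5]
  rw [lintegral_const_mul' _ _ ENNReal.ofReal_ne_top]
  refine (mul_le_mul_right (hJ' ε E W _ l hε hε1) _).trans ?_
  rw [← ENNReal.ofReal_mul (by positivity)]
  apply ENNReal.ofReal_le_ofReal
  have h6 : 1 / 2 ≤ 1 - c * ε ^ 2 := by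
    have : c * ε ^ 2 ≤ 1 / 2 * 1 := by
      apply mul_le_mul hc1 _ (by positivity) (by norm_num)
      exact pow_le_one₀ hε.le hε1
    linarith
  have h7 : 0 ≤ (1 - c * ε ^ 2) ^ l := pow_nonneg (by linarith) _
  have h8 : (1 - c * ε ^ 2) ^ l ≤ 2 * (1 - c * ε ^ 2) ^ (l + 1) := by
    have h9 : (1 - c * ε ^ 2) ^ (l + 1) = (1 - c * ε ^ 2) ^ l * (1 - c * ε ^ 2) :=
      pow_succ _ _
    rw [h9]
    nlinarith
  calc 18 * R / ε * t * (C / ε * (1 - c * ε ^ 2) ^ l) =
      18 * C * R / ε ^ 2 * t * (1 - c * ε ^ 2) ^ l := by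
        field_simp
    _ ≤ 18 * C * R / ε ^ 2 * t * (2 * (1 - c * ε ^ 2) ^ (l + 1)) :=
        mul_le_mul_of_nonneg_left h8 (by positivity)
    _ = _ := by ring

end Pool.Agent.H695R3.PP
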